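import Mathlib
import Pool.Prelude.Def_F_c31e40fa
import Pool.Agent.Q75.LwN

set_option autoImplicit false

/-!
# The law of the multiplier of a random parameter of given period

For `k ≥ 1` let `c` be uniformly distributed in the set of all the parameters for which `z ^ n + c`
has an attracting cycle of exact period `k + 1`, let `μ` be its multiplier, and let `n → ∞`. Then
`log (n |c| ^ (n - 1)) / log^[k] n` and `-log |μ| / (n |f_c ^ (k + 1) (0) / c - 1|)` are
asymptotically independent, the first one has the uniform law on `[0, 1]` and the second one the law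
of `|cos Θ|`, `Θ` a uniform angle. The difference of `log^[k + 1] (1 / |μ|)` and
`log (n |c| ^ (n - 1))` is bounded in probability; in particular
`log^[k + 1] (1 / |μ|) / log^[k] n` has asymptotically the uniform law on `[0, 1]`.
-/

open MeasureTheory Filter Topology

namespace Pool.Agent.Results.MP_af9036_an.GlobalMultiplierLaw

/-- `z ^ n + c` has an attracting cycle of exact period `p` with multiplier `μ`. -/
def HasCycle (n p : ℕ) (c μ : ℂ) : Prop :=
  ∃ z, N62a1eb23.IsAttractingCycle (fun z => z ^ n + c) p z ∧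
    Function.minimalPeriod (fun z => z ^ n + c) z = p ∧ deriv (fun z => z ^ n + c)^[p] z = μ

/-- The relative distance of the point `f_c ^ p (0)` of the critical orbit to the critical value
`c`. -/
noncomputable def relDist (n p : ℕ) (c : ℂ) : ℝ := ‖(fun z => z ^ n + c)^[p] 0 / c - 1‖

/-- The parameters for which `z ^ n + c` has an attracting cycle of exact period `p`. -/
def Exact (n p : ℕ) : Set ℂ := {c | ∃ μ, HasCycle n p c μ}

/-- The proportion of the elements of `B` among the parameters with an attracting cycle of exact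
period `p` (Lebesgue measure). -/
noncomputable def Proportion (n p : ℕ) (B : Set ℂ) : ℝ :=
  (volume (B ∩ Exact n p)).toReal / (volume (Exact n p)).toReal

theorem result {k : ℕ} (hk : 1 ≤ k) :
    (∀ s t : ℝ, 0 ≤ s → s ≤ 1 → 0 ≤ t → t ≤ 1 →
      Tendsto (fun n : ℕ => Proportion n (k + 1) {c | ∃ μ, HasCycle n (k + 1) c μ ∧
        Real.log (n * ‖c‖ ^ (n - 1)) ≤ s * Real.log^[k] (n : ℝ) ∧
        Real.exp (-(t * (n * relDist n (k + 1) c))) ≤ ‖μ‖}) atTop
        (𝓝 (s * (2 / Real.pi * Real.arcsin t)))) ∧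
    (∀ ε : ℝ, 0 < ε → ∃ C : ℝ, ∀ᶠ n : ℕ in atTop,
      1 - ε ≤ Proportion n (k + 1) {c | ∃ μ, HasCycle n (k + 1) c μ ∧
        |Real.log^[k + 1] (1 / ‖μ‖) - Real.log (n * ‖c‖ ^ (n - 1))| ≤ C}) ∧
    (∀ t : ℝ, 0 ≤ t → t ≤ 1 →
      Tendsto (fun n : ℕ => Proportion n (k + 1) {c | ∃ μ, HasCycle n (k + 1) c μ ∧
        Real.log^[k + 1] (1 / ‖μ‖) ≤ t * Real.log^[k] (n : ℝ)}) atTop (𝓝 t)) := by
  obtain ⟨K, rfl⟩ : ∃ K, k = K + 1 := ⟨k - 1, by omega⟩
  have hE : ∀ n p : ℕ, Exact n p = Pool.Agent.TH363.CD.Ex n p := by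
    intro n p
    ext c
    constructor
    · rintro ⟨μ, z, h1, h2, -⟩
      exact ⟨z, h1, h2⟩
    · rintro ⟨z, h1, h2⟩
      exact ⟨_, z, h1, h2, rfl⟩
  have hP : ∀ (n p : ℕ) (B : Set ℂ), Proportion n p B = Pool.Agent.Q75.Lw.Fr n p B := by
    intro n p B
    unfold Proportion Pool.Agent.Q75.Lw.Fr
    rw [hE]
  refine ⟨?_, ?_, ?_⟩
  · intro s t hs0 hs1 ht0 ht1
    simp only [hP]
    exact Pool.Agent.Q75.Lw.law1 K hs0 hs1 ht0 ht1
  · intro ε hε
    simp only [hP]
    exact Pool.Agent.Q75.Lw.law2 K hε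
  · intro t ht0 ht1
    simp only [hP]
    exact Pool.Agent.Q75.Lw.law3 K ht0 ht1

end Pool.Agent.Results.MP_af9036_an.GlobalMultiplierLaw
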