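import Mathlib
import Pool.Prelude.Def_F_c31e40fa
import Pool.Agent.Q75.LwM

set_option autoImplicit false

/-!
# The law of the multiplier of a random parameter

Let `c` be uniformly distributed in the annulus `Y ≤ n |c| ^ (n - 1) ≤ lam Y`, and let `p` and `μ`
be the exact period and the multiplier of the attracting cycle of `z ^ n + c`. As `n → ∞` and
`Y → ∞` (slowly: `Y ≤ log^[K] n`), the pair of `p` and `-log |μ| / (n |f_c ^ p (0) / c - 1|)`
converges in law: the two components become independent, `p` is geometric, `P (p = k + 1) = 2 ^ (-k)`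
for `k ≥ 1`, and the second component has the distribution function `(2 / π) arcsin t`, which is the
one of `|cos Θ|` for an angle `Θ` with uniform distribution.
-/

open MeasureTheory Filter Topology

namespace Pool.Agent.Results.MP_af9036_an.MultiplierLaw

/-- `z ^ n + c` has an attracting cycle of exact period `p` with multiplier `μ`. -/
def HasCycle (n p : ℕ) (c μ : ℂ) : Prop :=
  ∃ z, N62a1eb23.IsAttractingCycle (fun z => z ^ n + c) p z ∧
    Function.minimalPeriod (fun z => z ^ n + c) z = p ∧ deriv (fun z => z ^ n + c)^[p] z = μ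

/-- The relative distance of the point `f_c ^ p (0)` of the critical orbit to the critical value
`c`. -/
noncomputable def relDist (n p : ℕ) (c : ℂ) : ℝ := ‖(fun z => z ^ n + c)^[p] 0 / c - 1‖

/-- The parameters for which `z ^ n + c` has an attracting cycle whose exact period `p` belongs to
`S` and whose multiplier `μ` satisfies `-log |μ| ≤ t n |f_c ^ p (0) / c - 1|`. -/
def Event (n : ℕ) (S : Set ℕ) (t : ℝ) : Set ℂ :=
  {c | ∃ p ∈ S, ∃ μ, HasCycle n p c μ ∧ Real.exp (-(t * (n * relDist n p c))) ≤ ‖μ‖}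

/-- The annulus `y ≤ n |c| ^ (n - 1) ≤ y'`. -/
def Annulus (n : ℕ) (y y' : ℝ) : Set ℂ :=
  {c | y ≤ n * ‖c‖ ^ (n - 1) ∧ n * ‖c‖ ^ (n - 1) ≤ y'}

/-- The proportion of the parameters of `B` in the annulus. -/
noncomputable def Proportion (n : ℕ) (y y' : ℝ) (B : Set ℂ) : ℝ :=
  (volume (B ∩ Annulus n y y')).toReal / (volume (Annulus n y y')).toReal

open Classical in
theorem result {lam ε : ℝ} (hl : 1 < lam) (hε : 0 < ε) : ∃ (K : ℕ) (Y₀ : ℝ),
    ∀ᶠ n : ℕ in atTop, ∀ Y : ℝ, Y₀ ≤ Y → Y ≤ Real.log^[K] (n : ℝ) → ∀ (S : Set ℕ) (t : ℝ),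
      0 ≤ t → t ≤ 1 →
      |Proportion n Y (lam * Y) (Event n S t) -
        (∑' k : ℕ, if k + 2 ∈ S then (1 / 2 : ℝ) ^ (k + 1) else 0) *
          (2 / Real.pi * Real.arcsin t)| ≤ ε := by
  obtain ⟨K, Y₀, h⟩ := Pool.Agent.Q75.Lw.lawM hl hε
  refine ⟨K, Y₀, ?_⟩
  filter_upwards [h] with n hn
  intro Y hY hYn S t ht0 ht1
  obtain ⟨h1, h2⟩ := hn Y hY hYn S t ht0 ht1
  have hE : Event n S t = Pool.Agent.Q75.Lw.WeakM n S t := by
    ext c
    constructor
    · rintro ⟨p, hp, μ, ⟨z, hz1, hz2, rfl⟩, h3⟩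
      exact ⟨p, hp, z, hz1, hz2, h3⟩
    · rintro ⟨p, hp, z, hz1, hz2, h3⟩
      exact ⟨p, hp, _, ⟨z, hz1, hz2, rfl⟩, h3⟩
  set V := (volume (Annulus n Y (lam * Y))).toReal with hV
  have h1' : 0 < V := h1
  have h2' : |(volume (Event n S t ∩ Annulus n Y (lam * Y))).toReal -
      (∑' j : ℕ, if j + 2 ∈ S then (1 / 2 : ℝ) ^ (j + 1) else 0) *
        (2 / Real.pi * Real.arcsin t) * V| ≤ ε * V := by
    rw [hE]; exact h2
  unfold Proportion
  rw [← hV, ← mul_le_mul_iff_left₀ h1']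
  calc _ = |(((volume (Event n S t ∩ Annulus n Y (lam * Y))).toReal / V) -
        (∑' j : ℕ, if j + 2 ∈ S then (1 / 2 : ℝ) ^ (j + 1) else 0) *
          (2 / Real.pi * Real.arcsin t)) * V| := by
        rw [abs_mul, abs_of_pos h1']
    _ = |(volume (Event n S t ∩ Annulus n Y (lam * Y))).toReal -
      (∑' j : ℕ, if j + 2 ∈ S then (1 / 2 : ℝ) ^ (j + 1) else 0) *
        (2 / Real.pi * Real.arcsin t) * V| := by
        congr 1
        rw [sub_mul, div_mul_cancel₀ _ h1'.ne']
    _ ≤ _ := h2'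

end Pool.Agent.Results.MP_af9036_an.MultiplierLaw
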