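import Mathlib
import Pool.Prelude.Def_F_c31e40fa
import Pool.Agent.Q79.PerAreaI

set_option autoImplicit false

/-!
# The areas of the parameters with an attracting cycle of given exact period

For every `k ≥ 2`, as `n → ∞`: the set of parameters `c` for which `z ^ n + c` has an attracting
cycle of exact period `k + 1` has area `~ (2 π / 2 ^ k) log^[k] n / n`, and so has the set of all
parameters of the Multibrot set `M_n` without attracting cycle of period at most `k`.
-/

open MeasureTheory Filter Topology

namespace Pool.Agent.Results.MP_af9036_an.PeriodAreas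

/-- The parameters of the Multibrot set `M_n` for which `z ^ n + c` has no attracting cycle of
period at most `k`. -/
def Rest (n k : ℕ) : Set ℂ :=
  {c | c ∈ N62a1eb23.multibrotSet n ∧
    ∀ m, 1 ≤ m → m ≤ k → ¬ ∃ z, N62a1eb23.IsAttractingCycle (fun z => z ^ n + c) m z}

/-- The parameters for which `z ^ n + c` has an attracting cycle of exact period `m`. -/
def Exact (n m : ℕ) : Set ℂ :=
  {c | ∃ z, N62a1eb23.IsAttractingCycle (fun z => z ^ n + c) m z ∧
    Function.minimalPeriod (fun z => z ^ n + c) z = m}

theorem result (k : ℕ) (hk : 2 ≤ k) :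
    Tendsto (fun n : ℕ => n * (volume (Exact n (k + 1))).toReal / Real.log^[k] (n : ℝ)) atTop
      (𝓝 (2 * Real.pi / 2 ^ k)) ∧
    Tendsto (fun n : ℕ => n * (volume (Rest n k)).toReal / Real.log^[k] (n : ℝ)) atTop
      (𝓝 (2 * Real.pi / 2 ^ k)) := by
  obtain ⟨K, rfl⟩ : ∃ K, k = K + 1 := ⟨k - 1, by omega⟩
  obtain ⟨h1, h2⟩ := Pool.Agent.Q79.PA.main K
  exact ⟨h2, h1⟩

end Pool.Agent.Results.MP_af9036_an.PeriodAreas
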